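import Pool.Agent.UL7.Stmts
import Pool.Agent.Helper23_UL3.PLN

/-! Squad UL7, row SGA: the area of the sum with a segment. -/

set_option autoImplicit false

namespace Pool.Agent.UL7.H97

open MeasureTheory Set Pool.Agent.UL3 Pool.Agent.UL4 Pool.Agent.UL5

theorem sga (h1 : SgdStmt) : SgaStmt := by
  intro X v hX
  by_cases hv : v = 0
  · subst hv
    have e1 : sgm X 0 = X := by
      ext p
      constructor
      · rintro ⟨x, hx, t, _, rfl⟩
        simpa using hx
      · intro hp
        exact ⟨p, hp, 0, by simp, by simp⟩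
    have e2 : Hm (dh X) 0 = 0 := by
      unfold Hm
      obtain ⟨x, hx⟩ := hX.int
      have hx' : x ∈ X := interior_subset hx
      have e3 : (fun w => cr (0 : ℝ × ℝ) w) '' dh X = {0} := by
        ext r
        constructor
        · rintro ⟨w, _, rfl⟩
          simp [cr]
        · intro hr
          rw [mem_singleton_iff] at hr
          exact ⟨(1 / 2 : ℝ) • (x - x), ⟨x, hx', x, hx', rfl⟩, by simp [cr, hr]⟩
      rw [e3, csSup_singleton]
    rw [e1, e2]
    ring
  · have hn : 0 < v.1 ^ 2 + v.2 ^ 2 := by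
      rcases lt_or_eq_of_le (add_nonneg (sq_nonneg v.1) (sq_nonneg v.2)) with h | h
      · exact h
      · exfalso
        apply hv
        have a1 : v.1 ^ 2 = 0 := by nlinarith [sq_nonneg v.1, sq_nonneg v.2]
        have a2 : v.2 ^ 2 = 0 := by nlinarith [sq_nonneg v.1, sq_nonneg v.2]
        ext
        · simpa using a1
        · simpa using a2
    obtain ⟨u, hu⟩ : ∃ u : ℝ × ℝ, cr v u = 1 := by
      refine ⟨(-v.2 / (v.1 ^ 2 + v.2 ^ 2), v.1 / (v.1 ^ 2 + v.2 ^ 2)), ?_⟩
      simp only [cr]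
      field_simp
      ring
    have hpos : 0 < cr v u := by
      rw [hu]
      norm_num
    obtain ⟨e, he⟩ : ∃ e : (ℝ × ℝ) ≃ₜ (ℝ × ℝ), ∀ x, e x = H23.Ph v u x :=
      ⟨H23.He v u hpos, H23.he_apply v u hpos⟩
    obtain ⟨Y, hY⟩ : ∃ Y : Set (ℝ × ℝ), Y = e ⁻¹' X := ⟨_, rfl⟩
    have hmem : ∀ p, p ∈ Y ↔ H23.Ph v u p ∈ X := by
      intro p
      rw [hY, mem_preimage, he]
    have hsurj : ∀ p, ∃ q, H23.Ph v u q = p := by
      intro p
      refine ⟨e.symm p, ?_⟩
      rw [← he, e.apply_symm_apply]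
    have hP10 : H23.Ph v u (1, 0) = v := by
      rw [H23.ph_apply]
      ext <;> simp
    have hvol : ∀ S : Set (ℝ × ℝ), ar (H23.Ph v u ⁻¹' S) = ar S := by
      intro S
      have h11 : (volume : Measure (ℝ × ℝ)) (H23.Ph v u ⁻¹' S) =
          ENNReal.ofReal |(LinearMap.det (H23.Ph v u))⁻¹| * (volume : Measure (ℝ × ℝ)) S := by
        apply MeasureTheory.Measure.addHaar_preimage_linearMap
        rw [H23.ph_det]
        exact hpos.ne'
      rw [H23.ph_det, hu] at h11
      unfold ar
      rw [Measure.real, h11]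
      simp [Measure.real]
    have hPC : PC Y := by
      refine ⟨?_, ?_, ?_⟩
      · rw [hY, ← e.image_symm]
        exact hX.cpt.image e.symm.continuous
      · have h5 : Y = (H23.Ph v u) ⁻¹' X := by
          ext p
          rw [hmem, mem_preimage]
        rw [h5]
        exact hX.cvx.linear_preimage _
      · have hint : interior Y = e ⁻¹' (interior X) := by
          rw [hY]
          exact (e.preimage_interior X).symm
        obtain ⟨y, hy⟩ := hX.int
        refine ⟨e.symm y, ?_⟩
        rw [hint, mem_preimage, e.apply_symm_apply]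
        exact hy
    have key := h1 Y hPC
    have e3 : sgm Y (1, 0) = H23.Ph v u ⁻¹' (sgm X v) := by
      ext p
      rw [mem_preimage]
      constructor
      · rintro ⟨y, hy, t, ht, rfl⟩
        refine ⟨H23.Ph v u y, (hmem y).1 hy, t, ht, ?_⟩
        rw [map_add, map_smul, hP10]
      · rintro ⟨x, hx, t, ht, hpx⟩
        refine ⟨p - t • ((1, 0) : ℝ × ℝ), ?_, t, ht, by simp⟩
        rw [hmem, map_sub, map_smul, hP10, hpx]
        simpa using hx
    have e4 : H23.Ph v u ⁻¹' X = Y := by
      ext p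
      rw [hmem, mem_preimage]
    have e5 : Hm (dh Y) (1, 0) = Hm (dh X) v := by
      unfold Hm
      congr 1
      ext r
      constructor
      · rintro ⟨w, ⟨a, ha, b, hb, rfl⟩, rfl⟩
        refine ⟨(1 / 2 : ℝ) • (H23.Ph v u a - H23.Ph v u b),
          ⟨H23.Ph v u a, (hmem a).1 ha, H23.Ph v u b, (hmem b).1 hb, rfl⟩, ?_⟩
        show cr v _ = cr (1, 0) _
        rw [← map_sub, ← map_smul]
        have h6 := H23.ph_cr v u (1, 0) ((1 / 2 : ℝ) • (a - b))
        rw [hP10, hu, one_mul] at h6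
        exact h6
      · rintro ⟨w, ⟨a, ha, b, hb, rfl⟩, rfl⟩
        obtain ⟨a', rfl⟩ := hsurj a
        obtain ⟨b', rfl⟩ := hsurj b
        refine ⟨(1 / 2 : ℝ) • (a' - b'), ⟨a', (hmem a').2 ha, b', (hmem b').2 hb, rfl⟩, ?_⟩
        show cr (1, 0) _ = cr v _
        rw [← map_sub, ← map_smul]
        have h6 := H23.ph_cr v u (1, 0) ((1 / 2 : ℝ) • (a' - b'))
        rw [hP10, hu, one_mul] at h6
        exact h6.symm
    rw [e3, hvol, e5, ← e4, hvol] at key
    exact key

end Pool.Agent.UL7.H97
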